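import Mathlib

set_option autoImplicit false

open Filter Topology Cardinal

namespace Pool.Agent.Results.MP_6ca30a_an.NoUniversal

/-- The sequence `x` in the topological vector space `X` is Cauchy over the filter `F`: for every
neighbourhood `U` of `0` there is `B ∈ F` with `x(B) - x(B) ⊆ U`. -/
def CauchyOver (F : Filter ℕ) {X : Type} [AddCommGroup X] [TopologicalSpace X] (x : ℕ → X) :
    Prop :=
  ∀ U ∈ 𝓝 (0 : X), ∃ B ∈ F, ∀ m ∈ B, ∀ n ∈ B, x m - x n ∈ U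

/-- The sequence `x` converges to `y` over the filter `F`: for every neighbourhood `V` of `y`
there is `A ∈ F` with `x(A) ⊆ V`. -/
def ConvergesOver (F : Filter ℕ) {X : Type} [TopologicalSpace X] (x : ℕ → X) (y : X) : Prop :=
  ∀ V ∈ 𝓝 y, ∃ A ∈ F, ∀ n ∈ A, x n ∈ V

/-- `X` is complete over the filter `F`: every sequence in `X` that is Cauchy over `F` converges
over `F` to a point of `X`. -/
def CompleteOver (F : Filter ℕ) (X : Type) [AddCommGroup X] [TopologicalSpace X] : Prop :=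
  ∀ x : ℕ → X, CauchyOver F x → ∃ y : X, ConvergesOver F x y

/-- A free filter on `ℕ`: a proper filter that contains all cofinite sets. -/
def IsFree (F : Filter ℕ) : Prop := F.NeBot ∧ ∀ A : Set ℕ, Aᶜ.Finite → A ∈ F

/-- `X` is countably complete: it is complete over every free filter on `ℕ`. -/
def CountablyComplete (X : Type) [AddCommGroup X] [TopologicalSpace X] : Prop :=
  ∀ F : Filter ℕ, IsFree F → CompleteOver F X

/-! ### The construction -/

section construction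

variable (𝕜 : Type) [RCLike 𝕜] (S : Set (Ultrafilter ℕ))

/-- the ambient complete space `𝕜 ^ (2 ^ ℕ)` -/
abbrev Y : Type := (ℕ → Bool) → 𝕜

/-- operations: generators, addition, scalar multiplications, limits along members of `S` -/
abbrev Op : Type := (ℕ ⊕ Unit) ⊕ (𝕜 ⊕ S)

/-- arities -/
def ar : Op 𝕜 S → Type
  | Sum.inl (Sum.inl _) => Empty
  | Sum.inl (Sum.inr _) => ℕ
  | Sum.inr (Sum.inl _) => ℕ
  | Sum.inr (Sum.inr _) => ℕ

/-- value of one operation -/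
noncomputable def step (d : ℕ → Y 𝕜) : (Σ a : Op 𝕜 S, ar 𝕜 S a → Y 𝕜) → Y 𝕜
  | ⟨Sum.inl (Sum.inl n), _⟩ => d n
  | ⟨Sum.inl (Sum.inr _), f⟩ => f (0 : ℕ) + f (1 : ℕ)
  | ⟨Sum.inr (Sum.inl c), f⟩ => c • f (0 : ℕ)
  | ⟨Sum.inr (Sum.inr U), f⟩ => limUnder (U.1 : Filter ℕ) (f : ℕ → Y 𝕜)

/-- evaluation of terms -/
noncomputable def ev (d : ℕ → Y 𝕜) : WType (ar 𝕜 S) → Y 𝕜 := WType.elim (Y 𝕜) (step 𝕜 S d)

/-- the space: all values of terms -/
noncomputable def Xs (d : ℕ → Y 𝕜) : Submodule 𝕜 (Y 𝕜) where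
  carrier := Set.range (ev 𝕜 S d)
  add_mem' := by
    rintro _ _ ⟨a, rfl⟩ ⟨b, rfl⟩
    exact ⟨WType.mk (Sum.inl (Sum.inr ())) (fun n : ℕ => if n = 0 then a else b), by
      simp [ev, WType.elim, step]⟩
  zero_mem' := ⟨WType.mk (Sum.inr (Sum.inl 0))
    (fun _ : ℕ => WType.mk (Sum.inl (Sum.inl 0)) (fun e : Empty => e.elim)), by
      simp [ev, WType.elim, step]⟩
  smul_mem' := by
    rintro c _ ⟨a, rfl⟩
    exact ⟨WType.mk (Sum.inr (Sum.inl c)) (fun _ : ℕ => a), by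
      simp [ev, WType.elim, step]⟩

lemma mk_scalar_le : #𝕜 ≤ 𝔠 := by
  have h : Function.Injective (fun z : 𝕜 => ((RCLike.re z, RCLike.im z) : ℝ × ℝ)) := by
    intro a b hab
    have h1 := congrArg Prod.fst hab
    have h2 := congrArg Prod.snd hab
    exact RCLike.ext h1 h2
  have h2 := Cardinal.mk_le_of_injective h
  have h3 : #(ℝ × ℝ) = 𝔠 := by
    rw [Cardinal.mk_prod, Cardinal.lift_id, Cardinal.mk_real, Cardinal.continuum_mul_self]
  rwa [h3] at h2

lemma mk_W_le (hS : #S ≤ 𝔠) : #(WType (ar 𝕜 S)) ≤ 𝔠 := by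
  apply WType.cardinalMk_le_of_le
  have h1 : ∀ a : Op 𝕜 S, 𝔠 ^ #(ar 𝕜 S a) ≤ 𝔠 := by
    intro a
    rcases a with (n | u) | (c | U)
    · change 𝔠 ^ #Empty ≤ 𝔠
      rw [Cardinal.mk_eq_zero, power_zero]
      exact Cardinal.one_le_iff_pos.mpr Cardinal.continuum_pos
    · change 𝔠 ^ #ℕ ≤ 𝔠
      rw [Cardinal.mk_nat, Cardinal.continuum_power_aleph0]
    · change 𝔠 ^ #ℕ ≤ 𝔠
      rw [Cardinal.mk_nat, Cardinal.continuum_power_aleph0]
    · change 𝔠 ^ #ℕ ≤ 𝔠
      rw [Cardinal.mk_nat, Cardinal.continuum_power_aleph0]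
  have hOp : #(Op 𝕜 S) ≤ 𝔠 := by
    have : #(Op 𝕜 S) = (#ℕ + #Unit) + (#𝕜 + #S) := by
      simp [Op, Cardinal.mk_sum]
    rw [this]
    have a1 : #ℕ ≤ 𝔠 := by rw [Cardinal.mk_nat]; exact Cardinal.aleph0_le_continuum
    have a2 : #Unit ≤ 𝔠 := by
      rw [Cardinal.mk_fintype]
      exact (Cardinal.nat_lt_continuum _).le
    calc (#ℕ + #Unit) + (#𝕜 + #S) ≤ (𝔠 + 𝔠) + (𝔠 + 𝔠) :=
          add_le_add (add_le_add a1 a2) (add_le_add (mk_scalar_le 𝕜) hS)
      _ = 𝔠 := by simp [Cardinal.continuum_add_self]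
  calc (Cardinal.sum fun a : Op 𝕜 S => 𝔠 ^ #(ar 𝕜 S a))
      ≤ Cardinal.sum (fun _ : Op 𝕜 S => 𝔠) := Cardinal.sum_le_sum _ _ h1
    _ = #(Op 𝕜 S) * 𝔠 := by rw [Cardinal.sum_const']
    _ ≤ 𝔠 * 𝔠 := mul_le_mul' hOp le_rfl
    _ = 𝔠 := Cardinal.continuum_mul_self

lemma mk_Xs_le (hS : #S ≤ 𝔠) (d : ℕ → Y 𝕜) : #(Set.range (ev 𝕜 S d)) ≤ 𝔠 :=
  Cardinal.mk_range_le.trans (mk_W_le 𝕜 S hS)

lemma gen_mem (d : ℕ → Y 𝕜) (n : ℕ) : d n ∈ Xs 𝕜 S d :=
  ⟨WType.mk (Sum.inl (Sum.inl n)) (fun e : Empty => e.elim), by simp [ev, WType.elim, step]⟩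

lemma lim_mem (d : ℕ → Y 𝕜) (U : Ultrafilter ℕ) (hU : U ∈ S) (x : ℕ → Y 𝕜)
    (hx : ∀ n, x n ∈ Xs 𝕜 S d) (y : Y 𝕜) (hy : Tendsto x U (𝓝 y)) : y ∈ Xs 𝕜 S d := by
  choose a ha using hx
  refine ⟨WType.mk (Sum.inr (Sum.inr ⟨U, hU⟩)) (fun n : ℕ => a n), ?_⟩
  have h1 : ev 𝕜 S d (WType.mk (Sum.inr (Sum.inr ⟨U, hU⟩)) (fun n : ℕ => a n))
      = limUnder (U : Filter ℕ) (fun n : ℕ => ev 𝕜 S d (a n)) := rfl
  rw [h1]
  have h2 : (fun n : ℕ => ev 𝕜 S d (a n)) = x := by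
    funext n; exact ha n
  rw [h2]
  exact hy.limUnder_eq

/-- `Xs` is complete over all members of `S`. -/
lemma completeOver_Xs (d : ℕ → Y 𝕜) (U : Ultrafilter ℕ) (hU : U ∈ S) :
    CompleteOver (U : Filter ℕ) (Xs 𝕜 S d) := by
  intro x hx
  have hc : Cauchy (Filter.map (fun n => (x n : Y 𝕜)) (U : Filter ℕ)) := by
    rw [cauchy_map_iff']
    rw [uniformity_eq_comap_nhds_zero, tendsto_comap_iff]
    intro W hW
    have hW' : ((↑) : Xs 𝕜 S d → Y 𝕜) ⁻¹' W ∈ 𝓝 (0 : Xs 𝕜 S d) := by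
      apply continuous_subtype_val.continuousAt.preimage_mem_nhds
      exact hW
    obtain ⟨B, hB, hB2⟩ := hx _ hW'
    rw [Filter.mem_map, Filter.mem_prod_iff]
    refine ⟨B, hB, B, hB, ?_⟩
    rintro ⟨m, n⟩ ⟨hm, hn⟩
    exact hB2 n hn m hm
  obtain ⟨y, hy⟩ := CompleteSpace.complete hc
  have hy' : Tendsto (fun n => (x n : Y 𝕜)) U (𝓝 y) := hy
  have hmem : y ∈ Xs 𝕜 S d := lim_mem 𝕜 S d U hU _ (fun n => (x n).2) y hy'
  refine ⟨⟨y, hmem⟩, ?_⟩
  have ht : Tendsto x U (𝓝 (⟨y, hmem⟩ : Xs 𝕜 S d)) := by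
    rw [tendsto_subtype_rng]
    exact hy'
  intro V hV
  exact ⟨x ⁻¹' V, ht hV, fun n hn => hn⟩

/-- the index type of the dense sequence -/
abbrev T : Type := Σ n : ℕ, Finset (Fin n → Bool)

/-- points of the dense set -/
noncomputable def dd (s : T) : Y 𝕜 :=
  fun g => if (fun i : Fin s.1 => g i) ∈ s.2 then 1 else 0

/-- indicator functions -/
noncomputable def ind (P : Set (ℕ → Bool)) : Y 𝕜 :=
  open Classical in fun g => if g ∈ P then 1 else 0

lemma ind_injective : Function.Injective (ind 𝕜) := by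
  intro P Q h
  ext g
  have := congrFun h g
  unfold ind at this
  by_cases h1 : g ∈ P <;> by_cases h2 : g ∈ Q <;> simp_all

lemma exists_sep (J : Finset (ℕ → Bool)) : ∃ n₀ : ℕ, ∀ n, n₀ ≤ n → ∀ g ∈ J, ∀ h ∈ J,
    (fun i : Fin n => g i) = (fun i : Fin n => h i) → g = h := by
  classical
  -- for each pair choose a coordinate
  have h1 : ∀ p : (ℕ → Bool) × (ℕ → Bool), ∃ m : ℕ, p.1 ≠ p.2 → p.1 m ≠ p.2 m := by
    intro p
    by_cases hp : p.1 = p.2
    · exact ⟨0, fun h => absurd hp h⟩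
    · obtain ⟨m, hm⟩ := Function.ne_iff.mp hp
      exact ⟨m, fun _ => hm⟩
  choose c hc using h1
  refine ⟨(J ×ˢ J).sup c + 1, ?_⟩
  intro n hn g hg h hh hgh
  by_contra hne
  have h2 := hc (g, h) hne
  have h3 : c (g, h) ≤ (J ×ˢ J).sup c := Finset.le_sup (Finset.mk_mem_product hg hh)
  have h4 := congrFun hgh ⟨c (g, h), by omega⟩
  exact h2 h4

lemma infinite_near (P : Set (ℕ → Bool)) (W : Set (Y 𝕜)) (hW : W ∈ 𝓝 (ind 𝕜 P)) :
    {s : T | dd 𝕜 s ∈ W}.Infinite := by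
  classical
  rw [nhds_pi, Filter.mem_pi] at hW
  obtain ⟨J, hJ, t, ht, hsub⟩ := hW
  obtain ⟨n₀, hn₀⟩ := exists_sep hJ.toFinset
  let F : ℕ → T := fun k => ⟨n₀ + k, (hJ.toFinset.filter (fun g => g ∈ P)).image
    (fun g => fun i : Fin (n₀ + k) => g i)⟩
  have hF : Function.Injective F := by
    intro a b hab
    have : n₀ + a = n₀ + b := congrArg Sigma.fst hab
    omega
  apply Set.infinite_of_injective_forall_mem hF
  intro k
  apply hsub
  intro g hg
  have hval : dd 𝕜 (F k) g = ind 𝕜 P g := by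
    unfold dd ind
    have hiff : (fun i : Fin (F k).1 => g i) ∈ (F k).2 ↔ g ∈ P := by
      simp only [F, Finset.mem_image, Finset.mem_filter, Set.Finite.mem_toFinset]
      constructor
      · rintro ⟨g', ⟨hg', hP⟩, he⟩
        have := hn₀ (n₀ + k) (by omega) g' (by simpa using hg') g (by simpa using hg) he
        rwa [← this]
      · intro hP
        exact ⟨g, ⟨hg, hP⟩, rfl⟩
    by_cases hP : g ∈ P
    · simp [hiff.mpr hP, hP]
    · have : ¬ (fun i : Fin (F k).1 => g i) ∈ (F k).2 := fun h => hP (hiff.mp h)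
      simp [this, hP]
  rw [hval]
  exact mem_of_mem_nhds (ht g)

end construction

/-- **No small family of ultrafilters is universal.**  Let `𝕜` be `ℝ` or `ℂ` and let `S` be any
family of at most continuum many ultrafilters on `ℕ` (for instance one free ultrafilter).  Then
there is a Hausdorff topological vector space over `𝕜`, even a locally convex one (its topology
is given by seminorms), which is complete over every member of `S` but is not countably
complete. -/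
theorem result (𝕜 : Type) [RCLike 𝕜] (S : Set (Ultrafilter ℕ)) (hS : #S ≤ 𝔠) :
    ∃ (X : Type) (_ : AddCommGroup X) (_ : Module 𝕜 X) (_ : TopologicalSpace X)
      (_ : IsTopologicalAddGroup X) (_ : ContinuousSMul 𝕜 X) (_ : T2Space X)
      (_ : PolynormableSpace 𝕜 X),
      (∀ U ∈ S, CompleteOver (U : Filter ℕ) X) ∧ ¬ CountablyComplete X := by
  classical
  have hInf : Infinite T := Infinite.of_injective (fun n : ℕ => (⟨n, ∅⟩ : T)) (by
    intro a b hab
    exact congrArg Sigma.fst hab)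
  obtain ⟨hden⟩ := nonempty_denumerable T
  let e : ℕ ≃ T := (Denumerable.eqv T).symm
  let d : ℕ → Y 𝕜 := fun n => dd 𝕜 (e n)
  refine ⟨Xs 𝕜 S d, inferInstance, inferInstance, inferInstance, inferInstance, inferInstance,
    inferInstance, (Topology.IsInducing.subtypeVal).polynormableSpace (f := (Xs 𝕜 S d).subtype),
    fun U hU => completeOver_Xs 𝕜 S d U hU, ?_⟩
  -- a point outside
  obtain ⟨P, hP⟩ : ∃ P : Set (ℕ → Bool), ind 𝕜 P ∉ Xs 𝕜 S d := by
    by_contra hcon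
    push Not at hcon
    have h1 : #(Set (ℕ → Bool)) ≤ #(Set.range (ev 𝕜 S d)) := by
      let φ : Set (ℕ → Bool) → Set.range (ev 𝕜 S d) := fun P => ⟨ind 𝕜 P, hcon P⟩
      apply Cardinal.mk_le_of_injective (f := φ)
      intro P Q h
      exact ind_injective 𝕜 (congrArg Subtype.val h)
    have h2 : #(Set (ℕ → Bool)) ≤ 𝔠 := h1.trans (mk_Xs_le 𝕜 S hS d)
    have h3 : #(Set (ℕ → Bool)) = 2 ^ 𝔠 := by
      rw [Cardinal.mk_set]
      congr 1
      simp
    rw [h3] at h2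
    exact absurd (Cardinal.cantor 𝔠) (not_lt.mpr h2)
  intro hcc
  -- a free ultrafilter along which `d` converges to this point
  have hne : (comap d (𝓝 (ind 𝕜 P)) ⊓ cofinite).NeBot := by
    rw [Filter.inf_neBot_iff]
    rintro A ⟨W, hW, hWA⟩ B hB
    have hinf : {n : ℕ | d n ∈ W}.Infinite := by
      have h1 := infinite_near 𝕜 P W hW
      have h2 : {n : ℕ | d n ∈ W} = e ⁻¹' {s : T | dd 𝕜 s ∈ W} := rfl
      rw [h2]
      exact h1.preimage (by
        intro s _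
        exact e.surjective s)
    rw [Filter.mem_cofinite] at hB
    obtain ⟨n, hn1, hn2⟩ := (hinf.sdiff hB).nonempty
    exact ⟨n, hWA hn1, by simpa using hn2⟩
  let V : Ultrafilter ℕ := Ultrafilter.of (comap d (𝓝 (ind 𝕜 P)) ⊓ cofinite)
  have hV : (V : Filter ℕ) ≤ comap d (𝓝 (ind 𝕜 P)) ⊓ cofinite := Ultrafilter.of_le _
  have hVlim : Tendsto d V (𝓝 (ind 𝕜 P)) := by
    rw [tendsto_iff_comap]
    exact hV.trans inf_le_left
  have hVfree : IsFree (V : Filter ℕ) := by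
    refine ⟨inferInstance, ?_⟩
    intro A hA
    exact (hV.trans inf_le_right) (by rwa [Filter.mem_cofinite])
  let x : ℕ → Xs 𝕜 S d := fun n => ⟨d n, gen_mem 𝕜 S d n⟩
  have hx : CauchyOver (V : Filter ℕ) x := by
    intro U hU
    rw [mem_nhds_subtype] at hU
    obtain ⟨W, hW, hWU⟩ := hU
    have hc : Cauchy (Filter.map d (V : Filter ℕ)) := hVlim.cauchy_map
    rw [cauchy_map_iff', uniformity_eq_comap_nhds_zero, tendsto_comap_iff] at hc
    have h1 := hc hW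
    rw [Filter.mem_map, Filter.mem_prod_iff] at h1
    obtain ⟨B1, hB1, B2, hB2, hB⟩ := h1
    refine ⟨B1 ∩ B2, inter_mem hB1 hB2, ?_⟩
    intro m hm n hn
    apply hWU
    have h2 := hB (Set.mk_mem_prod hn.1 hm.2)
    exact h2
  obtain ⟨y, hy⟩ := hcc _ hVfree x hx
  have hy2 : Tendsto d V (𝓝 (y : Y 𝕜)) := by
    have h1 : Tendsto x V (𝓝 y) := by
      intro W hW
      obtain ⟨A, hA, hAW⟩ := hy W hW
      exact Filter.mem_map.mpr (Filter.mem_of_superset hA (fun n hn => hAW n hn))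
    exact (continuous_subtype_val.tendsto y).comp h1
  have h3 : ind 𝕜 P = (y : Y 𝕜) := tendsto_nhds_unique hVlim hy2
  exact hP (h3 ▸ y.2)

end Pool.Agent.Results.MP_6ca30a_an.NoUniversal
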